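import Mathlib

namespace Pool.Agent.Results.MP_4f3acd_an.NotEquiv

open Set Filter Topology MeasureTheory

/-- The basic neighbourhoods of the topology of convergence in probability. -/
def nb (μ : Measure ℕ) (x : ℕ → ℝ) (ε l : ℝ) : Set (ℕ → ℝ) :=
  {y | 1 - l < μ.real {ω | |y ω - x ω| < ε}}

/-- Open sets of the `(ε, λ)`-topology. -/
def OpenP (μ : Measure ℕ) (U : Set (ℕ → ℝ)) : Prop :=
  ∀ x ∈ U, ∃ ε l : ℝ, 0 < ε ∧ 0 < l ∧ l < 1 ∧ nb μ x ε l ⊆ U

/-- Convergence in the `(ε, λ)`-topology. -/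
def ConvP (μ : Measure ℕ) (x : ℕ → ℕ → ℝ) (x0 : ℕ → ℝ) : Prop :=
  ∀ ε l : ℝ, 0 < ε → 0 < l → l < 1 → ∀ᶠ n in atTop, x n ∈ nb μ x0 ε l

/-- Open sets of the locally `L⁰`-convex topology. -/
def OpenC (U : Set (ℕ → ℝ)) : Prop :=
  ∀ x ∈ U, ∃ ε : ℕ → ℝ, (∀ ω, 0 < ε ω) ∧ {y | ∀ ω, |y ω - x ω| < ε ω} ⊆ U

/-- Concatenation of a sequence along the partition into the fibres of `π`. -/
def glue (π : ℕ → ℕ) (x : ℕ → ℕ → ℝ) : ℕ → ℝ := fun ω => x (π ω) ω

/-- Stability of a set-valued map under countable concatenation. -/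
def Stable (F : (ℕ → ℝ) → Set (ℕ → ℝ)) : Prop :=
  ∀ (π : ℕ → ℕ) (x : ℕ → ℕ → ℝ), F (glue π x) = {z | ∃ y : ℕ → ℕ → ℝ, (∀ k, y k ∈ F (x k)) ∧
    z = glue π y}

/-- Upper semicontinuity for the locally `L⁰`-convex topology. -/
def UscC (F : (ℕ → ℝ) → Set (ℕ → ℝ)) : Prop :=
  ∀ x0 U, (∃ U', OpenC U' ∧ F x0 ⊆ U' ∧ U' ⊆ U) →
    ∃ V, (∃ V', OpenC V' ∧ x0 ∈ V' ∧ V' ⊆ V) ∧ ∀ x ∈ V, F x ⊆ U

/-- Random sequential upper semicontinuity. -/
def UscR (μ : Measure ℕ) (F : (ℕ → ℝ) → Set (ℕ → ℝ)) : Prop :=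
  ∀ x0 x, ConvP μ x x0 → ∀ V, (∃ V', OpenP μ V' ∧ F x0 ⊆ V' ∧ V' ⊆ V) →
    ∃ n : ℕ → ℕ → ℕ, (∀ k ω, n k ω < n (k + 1) ω) ∧ ∃ k0, ∀ k ≥ k0, F (glue (n k) x) ⊆ V

/-- The example. -/
def ex (x : ℕ → ℝ) : Set (ℕ → ℝ) := {y | ∀ ω, y ω = x ω ∨ y ω = x ω + 1}

lemma stable : Stable ex := by
  intro π x
  ext z
  constructor
  · intro hz
    refine ⟨fun k ω => if π ω = k then z ω else x k ω, fun k ω => ?_, ?_⟩
    · by_cases h : π ω = k
      · subst h
        simpa [glue] using hz ω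
      · simp [h]
    · funext ω
      simp [glue]
  · rintro ⟨y, hy, rfl⟩ ω
    exact hy (π ω) ω

lemma open_of (μ : Measure ℕ) [IsProbabilityMeasure μ] {U : Set (ℕ → ℝ)} (h : OpenP μ U) :
    IsOpen U := by
  rw [isOpen_iff_mem_nhds]
  intro x hx
  obtain ⟨ε, l, h1, h2, h3, h4⟩ := h x hx
  have t1 : Tendsto (fun N => μ (Iic N)) atTop (𝓝 (μ univ)) := tendsto_measure_Iic_atTop μ
  have t2 : Tendsto (fun N => μ.real (Iic N)) atTop (𝓝 1) := by
    have := (ENNReal.tendsto_toReal (measure_ne_top μ univ)).comp t1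
    rw [measure_univ, ENNReal.toReal_one] at this
    exact this
  obtain ⟨N, hN⟩ := (t2.eventually (lt_mem_nhds (show 1 - l < 1 by linarith))).exists
  have : ∀ᶠ y in 𝓝 x, ∀ ω ∈ Iic N, |y ω - x ω| < ε := by
    rw [eventually_all_finite (finite_Iic N)]
    intro ω _
    have c : Continuous fun y : ℕ → ℝ => |y ω - x ω| := by fun_prop
    exact c.continuousAt.eventually_lt continuousAt_const (by simpa using h1)
  filter_upwards [this] with y hy
  exact h4 (hN.trans_le (measureReal_mono hy))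

lemma conv_of (μ : Measure ℕ) [IsProbabilityMeasure μ] (hp : ∀ ω, μ {ω} ≠ 0)
    {x : ℕ → ℕ → ℝ} {x0 : ℕ → ℝ} (h : ConvP μ x x0) : Tendsto x atTop (𝓝 x0) := by
  rw [tendsto_pi_nhds]
  intro ω
  rw [Metric.tendsto_nhds]
  intro ε hε
  have p0 : 0 < μ.real {ω} := ENNReal.toReal_pos (hp ω) (measure_ne_top _ _)
  have p1 : μ.real {ω} ≤ 1 := measureReal_le_one
  filter_upwards [h ε (μ.real {ω} / 2) hε (by linarith) (by linarith)] with n hn
  by_contra hc
  have h1 : μ.real {ω' | |x n ω' - x0 ω'| < ε} ≤ μ.real {ω}ᶜ := by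
    refine measureReal_mono fun ω' h' e => hc ?_
    rw [mem_singleton_iff.1 e] at h'
    exact h'
  rw [probReal_compl_eq_one_sub (measurableSet_singleton ω)] at h1
  have h2 : 1 - μ.real {ω} / 2 < _ := hn
  linarith

lemma uscR (μ : Measure ℕ) [IsProbabilityMeasure μ] (hp : ∀ ω, μ {ω} ≠ 0) : UscR μ ex := by
  rintro x0 x hx V ⟨V', h1, h2, h3⟩
  have hK : IsCompact (ex 0) := by
    have : ex 0 = Set.pi univ fun _ => ({0, 1} : Set ℝ) := by
      ext y
      simp [ex]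
    rw [this]
    exact isCompact_univ_pi fun _ => (toFinite _).isCompact
  have hev : ∀ᶠ z in 𝓝 x0, ∀ s ∈ ex 0, z + s ∈ V' := by
    refine hK.eventually_forall_of_forall_eventually fun s hs => ?_
    have c : Continuous fun p : (ℕ → ℝ) × (ℕ → ℝ) => p.1 + p.2 := by fun_prop
    refine c.continuousAt.eventually_mem ((open_of μ h1).mem_nhds (h2 fun ω => ?_))
    simpa using hs ω
  obtain ⟨k0, hk⟩ := eventually_atTop.1 ((conv_of μ hp hx).eventually hev)
  refine ⟨fun k _ => k, fun k _ => k.lt_succ_self, k0, fun k hk0 y hy => h3 ?_⟩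
  have := hk k hk0 (y - x k) fun ω => by
    rcases hy ω with h | h <;> simp [h, glue]
  simpa using this

lemma not_uscC : ¬ UscC ex := by
  classical
  intro h
  let r : (ℕ → ℝ) → ℝ := fun s =>
    if h : ∃ j : ℕ, s = Pi.single (j + 1) 1 then 1 / ((h.choose : ℝ) + 2) else 1 / 2
  have r0 : ∀ s, 0 < r s ∧ r s ≤ 1 / 2 := by
    intro s
    simp only [r]
    split_ifs with h
    · exact ⟨by positivity, one_div_le_one_div_of_le two_pos (by simp)⟩
    · norm_num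
  have r1 : ∀ j : ℕ, r (Pi.single (j + 1) 1) = 1 / ((j : ℝ) + 2) := by
    intro j
    have h : ∃ i : ℕ, (Pi.single (j + 1) 1 : ℕ → ℝ) = Pi.single (i + 1) 1 := ⟨j, rfl⟩
    have : h.choose = j := by
      by_contra hne
      have := congrFun h.choose_spec (j + 1)
      rw [Pi.single_eq_same, Pi.single_eq_of_ne (by omega)] at this
      norm_num at this
    simp only [r, dif_pos h, this]
  let U : Set (ℕ → ℝ) := {y | ∃ s ∈ ex 0, ∀ ω, |y ω - s ω| < r s}
  have hU : OpenC U := by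
    rintro y ⟨s, hs, hy⟩
    refine ⟨fun ω => r s - |y ω - s ω|, fun ω => sub_pos.2 (hy ω), fun z hz => ⟨s, hs, fun ω => ?_⟩⟩
    linarith [hz ω, abs_sub_le (z ω) (y ω) (s ω)]
  obtain ⟨V, ⟨V', h1, h2, h3⟩, h4⟩ := h 0 U ⟨U, hU, fun s hs => ⟨s, hs, fun ω => by
    simpa using (r0 s).1⟩, subset_rfl⟩
  obtain ⟨ε, e1, e2⟩ := h1 0 h2
  set d := min (ε 0 / 2) (1 / 4) with hd
  have d0 : 0 < d := lt_min (by linarith [e1 0]) (by norm_num)
  have d1 : d ≤ ε 0 / 2 := min_le_left _ _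
  have d2 : d ≤ 1 / 4 := min_le_right _ _
  obtain ⟨j, hj⟩ := exists_nat_one_div_lt d0
  have hx : (Pi.single 0 d : ℕ → ℝ) ∈ V := by
    refine h3 (e2 fun ω => ?_)
    rcases ω with _ | ω
    · simp [abs_of_pos d0]; linarith [e1 0]
    · simpa using e1 _
  obtain ⟨s, hs, hy⟩ := h4 _ hx (a := Pi.single 0 d + Pi.single (j + 1) 1) fun ω => by
    by_cases h : ω = j + 1
    · subst h; simp
    · simp [h]
  have hs' : s = Pi.single (j + 1) 1 := by
    funext ω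
    have a1 := abs_lt.1 ((hy ω).trans_le (r0 s).2)
    have a2 := hs ω
    simp only [Pi.zero_apply, zero_add, Pi.add_apply] at a1 a2
    by_cases h : ω = j + 1
    · subst h
      simp only [Pi.single_eq_same, Pi.single_eq_of_ne (Nat.succ_ne_zero j)] at a1 ⊢
      rcases a2 with a2 | a2
      · rw [a2] at a1; linarith [a1.2]
      · exact a2
    · rw [Pi.single_eq_of_ne h] at a1 ⊢
      rcases a2 with a2 | a2
      · exact a2
      · have : (Pi.single 0 d : ℕ → ℝ) ω ≤ 1 / 4 := by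
          rcases ω with _ | ω
          · simpa using d2
          · simp
        rw [a2] at a1; linarith [a1.1]
  have := hy 0
  rw [hs', r1] at this
  simp only [Pi.add_apply, Pi.single_eq_same, add_sub_cancel_right, abs_of_pos d0] at this
  have h5 : 1 / ((j : ℝ) + 2) ≤ 1 / ((j : ℝ) + 1) :=
    one_div_le_one_div_of_le (by positivity) (by linarith)
  linarith

theorem result (μ : Measure ℕ) [IsProbabilityMeasure μ] (hp : ∀ ω, μ {ω} ≠ 0) :
    ∃ F : (ℕ → ℝ) → Set (ℕ → ℝ), (∀ x, (F x).Nonempty) ∧ Stable F ∧ UscR μ F ∧ ¬ UscC F :=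
  ⟨ex, fun x => ⟨x, fun _ => Or.inl rfl⟩, stable, uscR μ hp, not_uscC⟩

end Pool.Agent.Results.MP_4f3acd_an.NotEquiv
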